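import Pool.Agent.Helper19_ND.LocB
import Pool.Agent.Helper32_ND.Stmts
import Pool.Agent.Helper32_OMP.BTools

/-!
# ND, module LOC
-/

set_option autoImplicit false
set_option linter.unusedSectionVars false

namespace Pool.Agent.ND.H19

open MvPolynomial Pool.Agent.Helper6_Mono

/-- chains over an algebra and the Bernstein-Sato polynomial -/
theorem bfun_memE {σ : Type} [Finite σ] {E B : Type} [CommRing E] [Algebra ℂ E] [AddCommGroup B]
    [Module ℂ B] [Module E B] [IsScalarTower ℂ E B]
    (f : MvPolynomial σ ℂ) (s : E) (act : MvPolynomial σ ℂ →ₐ[ℂ] Module.End E B)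
    (d : σ → Module.End E B)
    (leibX : ∀ i j b, d i (act (X j) b) = act (pderiv i (X j)) b + act (X j) (d i b))
    (psi : ℕ → B) (mul_psi : ∀ n, act f (psi (n + 1)) = psi n)
    (d_psi : ∀ i, ∀ n : ℕ, d i (psi n) = (s - (n : E)) • act (pderiv i f) (psi (n + 1)))
    (N : Submodule E B) (hact : ∀ i, ∀ b ∈ N, act (X i) b ∈ N) (hd : ∀ i, ∀ b ∈ N, d i b ∈ N)
    (h0 : act f (psi 0) ∈ N) : (Polynomial.aeval s (bfun f)) • psi 0 ∈ N := by
  let I : Ideal (Polynomial ℂ) :=
    { carrier := {b | (Polynomial.aeval s b) • psi 0 ∈ N}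
      zero_mem' := by
        show (Polynomial.aeval s (0 : Polynomial ℂ)) • psi 0 ∈ N
        rw [map_zero, zero_smul]
        exact N.zero_mem
      add_mem' := by
        intro a b ha hb
        show (Polynomial.aeval s (a + b)) • psi 0 ∈ N
        rw [map_add, add_smul]
        exact N.add_mem ha hb
      smul_mem' := by
        intro c b hb
        show (Polynomial.aeval s (c * b)) • psi 0 ∈ N
        rw [map_mul, mul_smul]
        exact N.smul_mem _ hb }
  have hI : Ideal.span {b | LocalBS f b} ≤ I := by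
    rw [Ideal.span_le]
    intro b hb
    exact Helper30_Simp.H42.eroot σ E B f s act d leibX psi mul_psi d_psi N hact hd h0 b hb
  have h3 : Submodule.IsPrincipal.generator (Ideal.span {b | LocalBS f b}) ∈ I :=
    hI (Submodule.IsPrincipal.generator_mem (Ideal.span {b | LocalBS f b}))
  have h4 : bfun f ∈ I := by
    rw [bfun, normalize_apply]
    exact I.mul_mem_right _ h3
  exact h4

theorem pderiv_inr_rename {n : ℕ} {κ : Type} (j : κ) (p : MvPolynomial (Fin n) ℂ) :
    pderiv (Sum.inr j : Fin n ⊕ κ) (rename Sum.inl p : MvPolynomial (Fin n ⊕ κ) ℂ) = 0 := by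
  classical
  induction p using MvPolynomial.induction_on with
  | C a => rw [rename_C, pderiv_C]
  | add p q hp hq => rw [map_add, map_add, hp, hq, add_zero]
  | mul_X p w hp =>
    rw [map_mul, Derivation.leibniz, hp, rename_X, smul_zero, add_zero,
      pderiv_X_of_ne (by simp), smul_zero]

/-- MODULE LOC -/
theorem loc : LocStmt := by
  intro n κ _ E H _ _ _ _ _ _ f0 d hf0 g hg s act D leibX psi mul_psi d_psi N hact hd h0
  set g0 : ℂ := constantCoeff g with hg0
  set R0 : MvPolynomial (Fin n ⊕ κ) ℂ := rename Sum.inl f0 with hR0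
  have hR0h : R0.IsHomogeneous d := hf0.rename_isHomogeneous
  set F : MvPolynomial (Fin n ⊕ κ) ℂ := R0 * g with hF
  -- constants
  set u : E := algebraMap ℂ E g0⁻¹ with hu
  set u' : E := algebraMap ℂ E g0 with hu'
  have huu : u * u' = 1 := by
    rw [hu, hu', ← map_mul, inv_mul_cancel₀ hg, map_one]
  -- the power series
  set P : PowerSeries (MvPolynomial (Fin n ⊕ κ) E) := PowerSeries.C (C u) * tau κ E g with hP
  have hP1 : PowerSeries.constantCoeff P = 1 := by
    rw [hP, map_mul, PowerSeries.constantCoeff_C, tau_const, ← map_mul, ← hg0, ← hu', huu, map_one]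
  have htau : tau κ E g = PowerSeries.C (C u') * P := by
    rw [hP, ← mul_assoc, ← map_mul, ← map_mul, mul_comm u', huu, map_one, map_one, one_mul]
  obtain ⟨hpw1, hpw2, hpw3⟩ := bpow_spec P hP1
  set pw : E → PowerSeries (MvPolynomial (Fin n ⊕ κ) E) := fun c => pwS P (C c) with hpw
  have hpmul : ∀ c : E, P * pw c = pw (c + 1) := by
    intro c
    rw [hpw]
    change P * pwS P (C c) = pwS P (C (c + 1))
    rw [hpw2, map_add, map_one]
  have hpD : ∀ (v : Fin n ⊕ κ) (c : E), mD (pdA v) (pw c) =
      PowerSeries.C (C c) * (PowerSeries.C (C u) * (PowerSeries.X * tau κ E (pderiv v g)) *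
        pw (c - 1)) := by
    intro v c
    have h1 := hpw3 (pdA v) (C c) (pdA_mul v) (by rw [pdA_apply, pderiv_C])
    have h2 : mD (pdA v) P = PowerSeries.C (C u) * (PowerSeries.X * tau κ E (pderiv v g)) := by
      rw [hP, mD_C_mul (pdA_mul v) (by rw [pdA_apply, pderiv_C]), mD_tau]
    change mD (pdA v) (pwS P (C c)) = _
    rw [h1, h2]
    have h3 : (C c : MvPolynomial (Fin n ⊕ κ) E) - 1 = C (c - 1) := by rw [map_sub, map_one]
    rw [h3]
  -- the elements
  set h : ℕ → Hz κ H := fun k => cs κ (psi k) with hh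
  have hf0h : ∀ k, rho act (io κ E R0) (h (k + 1)) = h k := by
    intro k
    rw [hh, hR0]
    change rho act (io κ E (rename Sum.inl f0)) (cs κ (psi (k + 1))) = cs κ (psi k)
    rw [rho_ren_cs, mul_psi]
  have hDh : ∀ (v : Fin n ⊕ κ) (k : ℕ), dop D v (h k) =
      (s - (k : E)) • rho act (io κ E (pderiv v R0)) (h (k + 1)) := by
    intro v k
    rcases v with i | j
    · have e1 : pderiv (Sum.inl i : Fin n ⊕ κ) R0 = rename Sum.inl (pderiv i f0) := by
        rw [hR0, pderiv_rename Sum.inl_injective]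
      rw [e1]
      funext γ
      rw [dop_inl, Pi.smul_apply]
      change D i (cs κ (psi k) γ) = (s - (k : E)) •
        rho act (io κ E (rename Sum.inl (pderiv i f0))) (cs κ (psi (k + 1))) γ
      rw [rho_ren_cs]
      by_cases hγ : γ = 0
      · subst hγ; rw [cs_zero, cs_zero, d_psi]
      · rw [cs_ne hγ, cs_ne hγ, map_zero, smul_zero]
    · have e1 : pderiv (Sum.inr j : Fin n ⊕ κ) R0 = 0 := by
        rw [hR0]
        exact pderiv_inr_rename j f0
      rw [e1, io, map_zero, map_zero, LinearMap.zero_apply, smul_zero]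
      funext γ
      rw [dop_inr]
      change ((γ j + 1 : ℕ) : E) • cs κ (psi k) (γ + dl j) = 0
      rw [cs_ne, smul_zero]
      intro h0
      have := DFunLike.congr_fun h0 j
      rw [Finsupp.add_apply, dl_self] at this
      simp at this
  set Psi : ℕ → Bz κ H := fun k =>
    u ^ k • Sh (E := E) ((d * k : ℕ) : ℤ) (st act (pw (s - (k : E))) (h k)) with hPsi
  have hpsi_apply : ∀ k, Psi k = u ^ k • Sh (E := E) ((d * k : ℕ) : ℤ)
      (st act (pw (s - (k : E))) (h k)) := fun _ => rfl
  -- basic computation : the action of `q * g` on `Psi (k+1)`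
  have hg_act : ∀ (q : MvPolynomial (Fin n ⊕ κ) ℂ) (k : ℕ), actB act (q * g) (Psi (k + 1)) =
      u ^ k • Sh (E := E) ((d * (k + 1) : ℕ) : ℤ)
        (st act (tau κ E q * pw (s - (k : E))) (h (k + 1))) := by
    intro q k
    rw [hpsi_apply, map_smul, actB_Sh, actB_st, map_mul, htau]
    have e1 : tau κ E q * (PowerSeries.C (C u') * P) * pw (s - ((k + 1 : ℕ) : E)) =
        PowerSeries.C (C u') * (tau κ E q * pw (s - (k : E))) := by
      have h1 := hpmul (s - ((k + 1 : ℕ) : E))
      have h2 : s - ((k + 1 : ℕ) : E) + 1 = s - (k : E) := by push_cast; ring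
      rw [h2] at h1
      rw [← h1]; ring
    rw [e1, st_C_mul, map_smul, smul_smul, pow_succ, mul_assoc, huu, mul_one]
  have hmulPsi : ∀ k, actB act F (Psi (k + 1)) = Psi k := by
    intro k
    rw [hF, hg_act, tau_homog hR0h, mul_assoc, st_Xpow, st_rho, hf0h, Sh_Sh, hpsi_apply]
    congr 2
    push_cast; ring_nf
  have hdPsi : ∀ v, ∀ k : ℕ, dopB D v (Psi k) =
      (s - (k : E)) • actB act (pderiv v F) (Psi (k + 1)) := by
    intro v k
    have e1 : pderiv v F = pderiv v R0 * g + R0 * pderiv v g := by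
      rw [hF, Derivation.leibniz, smul_eq_mul, smul_eq_mul, mul_comm g, add_comm]
    -- the first term
    have hX : st act (tau κ E (pderiv v R0) * pw (s - (k : E))) (h (k + 1)) =
        Sh (E := E) 1 (Sh (E := E) (-(d : ℤ))
          (st act (pw (s - (k : E))) (rho act (io κ E (pderiv v R0)) (h (k + 1))))) := by
      have h1 : PowerSeries.X * tau κ E (pderiv v R0) =
          PowerSeries.X ^ d * PowerSeries.C (io κ E (pderiv v R0)) := by
        rw [← mD_tau, tau_homog hR0h]
        ext1 m
        rw [coeff_mD, PowerSeries.coeff_X_pow_mul', PowerSeries.coeff_X_pow_mul',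
          PowerSeries.coeff_C, PowerSeries.coeff_C]
        split_ifs
        · rw [pdA_apply, io, pderiv_map]
        · rw [map_zero]
        · rw [map_zero]
      have h2 : Sh (E := E) (-1) (st act (tau κ E (pderiv v R0) * pw (s - (k : E))) (h (k + 1))) =
          Sh (E := E) (-(d : ℤ))
          (st act (pw (s - (k : E))) (rho act (io κ E (pderiv v R0)) (h (k + 1)))) := by
        rw [← st_X, ← mul_assoc, h1, mul_assoc, st_Xpow, st_rho]
      rw [← h2, Sh_Sh]
      norm_num
      rw [Sh_zero]
    have hT1 : actB act (pderiv v R0 * g) (Psi (k + 1)) = u ^ k • Sh (E := E) ((d * k + 1 : ℕ) : ℤ)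
        (st act (pw (s - (k : E))) (rho act (io κ E (pderiv v R0)) (h (k + 1)))) := by
      rw [hg_act, hX, Sh_Sh, Sh_Sh]
      congr 2
      push_cast; ring_nf
    -- the second term
    have hT2 : actB act (R0 * pderiv v g) (Psi (k + 1)) =
        u ^ (k + 1) • Sh (E := E) ((d * k : ℕ) : ℤ)
        (st act (tau κ E (pderiv v g) * pw (s - ((k + 1 : ℕ) : E))) (h k)) := by
      rw [hpsi_apply, map_smul, actB_Sh, actB_st, map_mul, tau_homog hR0h, mul_assoc, mul_assoc,
        st_Xpow, st_rho, hf0h, Sh_Sh]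
      congr 3
      push_cast; ring
    rw [e1, map_add, LinearMap.add_apply, hT1, hT2, hpsi_apply, map_smul, dopB_Sh, dopB_st leibX,
      hDh, st_smul, hpD]
    have e3 : PowerSeries.C (C (s - (k : E))) * (PowerSeries.C (C u) *
        (PowerSeries.X * tau κ E (pderiv v g)) * pw (s - (k : E) - 1)) =
        PowerSeries.C (C (s - (k : E))) * (PowerSeries.C (C u) *
        (PowerSeries.X * (tau κ E (pderiv v g) * pw (s - ((k + 1 : ℕ) : E))))) := by
      have : s - (k : E) - 1 = s - ((k + 1 : ℕ) : E) := by push_cast; ring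
      rw [this]; ring
    rw [e3, st_C_mul, st_C_mul, st_X, ← smul_add, map_smul, map_smul, map_add, map_add, map_smul,
      map_smul, Sh_Sh, Sh_Sh, Sh_Sh]
    have e4 : ((d * k : ℕ) : ℤ) + 1 + -1 = ((d * k : ℕ) : ℤ) := by ring
    have e5 : ((d * k : ℕ) : ℤ) + 1 = ((d * k + 1 : ℕ) : ℤ) := by push_cast; ring
    rw [e4, e5, smul_comm (u ^ k) (s - (k : E)), smul_add (u ^ k), smul_smul, ← pow_succ,
      add_comm]
  have hfin := bfun_memE F s (actB act) (dopB D) (leib_B leibX) Psi hmulPsi hdPsi (NB κ N)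
    (opB_mem hact) (dopB_mem hd) (by
      have : Psi 0 = st act (pw s) (h 0) := by
        rw [hpsi_apply, pow_zero, one_smul, Nat.mul_zero, Nat.cast_zero, Nat.cast_zero, Sh_zero,
          sub_zero]
      rw [this, hF, actB_st, map_mul, tau_homog hR0h, mul_assoc, mul_assoc, st_Xpow, st_rho]
      apply Sh_mem
      apply st_mem hact
      rw [hh, hR0]
      change rho act (io κ E (rename Sum.inl f0)) (cs κ (psi 0)) ∈ Nz κ N
      rw [rho_ren_cs]
      exact cs_mem h0)
  have h5 := mem_NB.1 hfin 0 0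
  have h6 : Psi 0 0 0 = psi 0 := by
    have : Psi 0 = st act (pw s) (h 0) := by
      rw [hpsi_apply, pow_zero, one_smul, Nat.mul_zero, Nat.cast_zero, Nat.cast_zero, Sh_zero,
        sub_zero]
    rw [this]
    have h7 := st_nat (act := act) (pw s) (h 0) 0
    rw [Nat.cast_zero] at h7
    rw [h7, PowerSeries.coeff_zero_eq_constantCoeff_apply]
    change rho act (PowerSeries.constantCoeff (pwS P (C s))) (h 0) 0 = psi 0
    rw [hpw1, map_one, Module.End.one_apply]
    exact cs_zero _
  rw [Pi.smul_apply, Pi.smul_apply, h6] at h5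
  exact h5

end Pool.Agent.ND.H19
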