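import Pool.Agent.Helper19_ND.Pow

/-!
# ND, module LOC, part 2: the modules
-/

set_option autoImplicit false
set_option linter.unusedSectionVars false

namespace Pool.Agent.ND.H19

open MvPolynomial

section

variable {n : ℕ} {κ E H : Type} [CommRing E] [Algebra ℂ E] [AddCommGroup H]
  [Module ℂ H] [Module E H] [IsScalarTower ℂ E H]
  (act : MvPolynomial (Fin n) ℂ →ₐ[ℂ] Module.End E H) (D : Fin n → Module.End E H)

/-- series in the variables `κ` with coefficients in `H` -/
abbrev Hz (κ H : Type) : Type := (κ →₀ ℕ) → H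

/-- the unit vector -/
noncomputable def dl (j : κ) : κ →₀ ℕ := Finsupp.single j 1

/-- the variables on `Hz` -/
noncomputable def op : Fin n ⊕ κ → Module.End E (Hz κ H)
  | Sum.inl i =>
    { toFun := fun b γ => act (X i) (b γ)
      map_add' := fun a b => by funext γ; exact map_add _ _ _
      map_smul' := fun c b => by funext γ; exact map_smul _ _ _ }
  | Sum.inr j =>
    { toFun := fun b γ => if γ j = 0 then 0 else b (γ - dl j)
      map_add' := fun a b => by
        funext γ
        simp only [Pi.add_apply]
        split_ifs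
        · rw [add_zero]
        · rfl
      map_smul' := fun c b => by
        funext γ
        simp only [Pi.smul_apply, RingHom.id_apply]
        split_ifs
        · rw [smul_zero]
        · rfl }

/-- the derivations on `Hz` -/
noncomputable def dop : Fin n ⊕ κ → Module.End E (Hz κ H)
  | Sum.inl i =>
    { toFun := fun b γ => D i (b γ)
      map_add' := fun a b => by funext γ; exact map_add _ _ _
      map_smul' := fun c b => by funext γ; exact map_smul _ _ _ }
  | Sum.inr j =>
    { toFun := fun b γ => ((γ j + 1 : ℕ) : E) • b (γ + dl j)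
      map_add' := fun a b => by
        funext γ
        simp only [Pi.add_apply, smul_add]
      map_smul' := fun c b => by
        funext γ
        simp only [Pi.smul_apply, RingHom.id_apply]
        rw [smul_smul, smul_smul, mul_comm] }

theorem op_inl (i : Fin n) (b : Hz κ H) (γ : κ →₀ ℕ) :
    op act (Sum.inl i) b γ = act (X i) (b γ) := rfl

theorem op_inr (j : κ) (b : Hz κ H) (γ : κ →₀ ℕ) :
    op act (Sum.inr j) b γ = if γ j = 0 then 0 else b (γ - dl j) := rfl

theorem dop_inl (i : Fin n) (b : Hz κ H) (γ : κ →₀ ℕ) :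
    dop D (Sum.inl i) b γ = D i (b γ) := rfl

theorem dop_inr (j : κ) (b : Hz κ H) (γ : κ →₀ ℕ) :
    dop D (Sum.inr j) b γ = ((γ j + 1 : ℕ) : E) • b (γ + dl j) := rfl

theorem dl_self (j : κ) : dl j j = 1 := by simp [dl]

theorem dl_ne {j l : κ} (h : j ≠ l) : dl j l = 0 := by simp [dl, h]

theorem op_comm (v w : Fin n ⊕ κ) : op act v * op act w = op act w * op (κ := κ) act v := by
  refine LinearMap.ext fun b => ?_
  funext γ
  rw [Module.End.mul_apply, Module.End.mul_apply]
  rcases v with i | j <;> rcases w with k | l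
  · rw [op_inl, op_inl, op_inl, op_inl, ← Module.End.mul_apply, ← Module.End.mul_apply, ← map_mul,
      ← map_mul, mul_comm]
  · rw [op_inl, op_inr, op_inr, op_inl]
    split_ifs
    · rw [map_zero]
    · rfl
  · rw [op_inl, op_inr, op_inr, op_inl]
    split_ifs
    · rw [map_zero]
    · rfl
  · rw [op_inr, op_inr, op_inr, op_inr]
    by_cases hjl : j = l
    · rw [hjl]
    · have h1 : (γ - dl j) l = γ l := by
        rw [Finsupp.tsub_apply, dl_ne hjl, Nat.sub_zero]
      have h2 : (γ - dl l) j = γ j := by
        rw [Finsupp.tsub_apply, dl_ne (Ne.symm hjl), Nat.sub_zero]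
      rw [h1, h2, tsub_right_comm]
      split_ifs <;> rfl

variable {act D}

theorem act_X_pd (leibX : ∀ i j b, D i (act (X j) b) = act (pderiv i (X j)) b + act (X j) (D i b))
    (i j : Fin n) (b : H) : D i (act (X j) b) = (if i = j then b else 0) + act (X j) (D i b) := by
  rw [leibX i j b, pderiv_X]
  congr 1
  by_cases h : i = j
  · subst h; simp
  · rw [if_neg h, Pi.single_eq_of_ne (Ne.symm h), map_zero, LinearMap.zero_apply]

theorem leib_op [DecidableEq (Fin n ⊕ κ)]
    (leibX : ∀ i j b, D i (act (X j) b) = act (pderiv i (X j)) b + act (X j) (D i b))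
    (v w : Fin n ⊕ κ) (b : Hz κ H) :
    dop D v (op act w b) = (if v = w then b else 0) + op act w (dop D v b) := by
  funext γ
  rw [Pi.add_apply]
  rcases v with i | j <;> rcases w with k | l
  · rw [dop_inl, op_inl, op_inl, dop_inl, act_X_pd leibX]
    congr 1
    by_cases h : i = k
    · subst h; simp
    · rw [if_neg h, if_neg (fun h' => h (Sum.inl_injective h'))]; rfl
  · rw [dop_inl, op_inr, op_inr, dop_inl,
      if_neg (show ¬ (Sum.inl i : Fin n ⊕ κ) = Sum.inr l from Sum.inl_ne_inr)]
    split_ifs
    · rw [map_zero, Pi.zero_apply, add_zero]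
    · rw [Pi.zero_apply, zero_add]
  · rw [dop_inr, op_inl, op_inl, dop_inr,
      if_neg (show ¬ (Sum.inr j : Fin n ⊕ κ) = Sum.inl k from Sum.inr_ne_inl), Pi.zero_apply,
      zero_add, map_smul]
  · rw [dop_inr, op_inr, op_inr, dop_inr]
    by_cases hjl : j = l
    · subst hjl
      rw [if_pos rfl]
      have h1 : (γ + dl j) j = γ j + 1 := by rw [Finsupp.add_apply, dl_self]
      rw [h1, if_neg (Nat.succ_ne_zero _), add_tsub_cancel_right]
      by_cases h0 : γ j = 0
      · rw [if_pos h0, h0, add_zero]; simp
      · rw [if_neg h0]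
        have h2 : γ - dl j + dl j = γ := by
          ext k
          rw [Finsupp.add_apply, Finsupp.tsub_apply]
          by_cases hk : j = k
          · subst hk; rw [dl_self]; omega
          · rw [dl_ne hk]; omega
        have h3 : (γ - dl j) j + 1 = γ j := by
          rw [Finsupp.tsub_apply, dl_self]; omega
        rw [h2, h3]
        push_cast
        rw [add_smul, one_smul, add_comm]
    · have h1 : (γ + dl j) l = γ l := by rw [Finsupp.add_apply, dl_ne hjl, add_zero]
      have h2 : (γ - dl l) j = γ j := by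
        rw [Finsupp.tsub_apply, dl_ne (Ne.symm hjl), Nat.sub_zero]
      rw [h1, if_neg (fun h => hjl (Sum.inr_injective h)), h2]
      by_cases h0 : γ l = 0
      · rw [if_pos h0, if_pos h0, smul_zero]; simp
      · rw [if_neg h0, if_neg h0]
        have h3 : γ + dl j - dl l = γ - dl l + dl j := by
          ext k
          rw [Finsupp.tsub_apply, Finsupp.add_apply, Finsupp.add_apply, Finsupp.tsub_apply]
          by_cases hk : l = k
          · subst hk; rw [dl_self, dl_ne hjl]; omega
          · rw [dl_ne hk]; omega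
        rw [h3]; simp

variable (act)

/-- the action of the polynomials with coefficients in `E` -/
noncomputable def rho : MvPolynomial (Fin n ⊕ κ) E →ₐ[E] Module.End E (Hz κ H) :=
  Classical.choose (exists_hom (k := E) (op act) (op_comm act))

theorem rho_X (v : Fin n ⊕ κ) : rho act (X v) = op act v :=
  Classical.choose_spec (exists_hom (k := E) (op act) (op_comm act)) v

theorem rho_C (c : E) (b : Hz κ H) : rho act (C c) b = c • b := by
  have h : rho act (C c) = algebraMap E (Module.End E (Hz κ H)) c := (rho act).commutes c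
  rw [h, Module.algebraMap_end_apply]

theorem rho_mul (p q : MvPolynomial (Fin n ⊕ κ) E) (b : Hz κ H) :
    rho act (p * q) b = rho act p (rho act q b) := by
  rw [map_mul, Module.End.mul_apply]

theorem rho_mul_comm (p q : MvPolynomial (Fin n ⊕ κ) E) (b : Hz κ H) :
    rho act p (rho act q b) = rho act q (rho act p b) := by
  rw [← rho_mul, mul_comm, rho_mul]

variable {act}

theorem leib_rho (leibX : ∀ i j b, D i (act (X j) b) = act (pderiv i (X j)) b + act (X j) (D i b))
    (v : Fin n ⊕ κ) (p : MvPolynomial (Fin n ⊕ κ) E) (b : Hz κ H) :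
    dop D v (rho act p b) = rho act (pderiv v p) b + rho act p (dop D v b) := by
  classical
  induction p using MvPolynomial.induction_on generalizing b with
  | C a => rw [rho_C, rho_C, pderiv_C, map_zero, LinearMap.zero_apply, zero_add, map_smul]
  | add p q hp hq =>
    simp only [map_add, LinearMap.add_apply, hp, hq]
    abel
  | mul_X p w hp =>
    have h : rho act (pderiv v (X w : MvPolynomial (Fin n ⊕ κ) E)) b = if v = w then b else 0 := by
      rw [pderiv_X]
      by_cases h : v = w
      · subst h; simp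
      · rw [if_neg h, Pi.single_eq_of_ne (Ne.symm h), map_zero, LinearMap.zero_apply]
    have h2 : rho act (pderiv v (p * X w)) b = rho act p (if v = w then b else 0) +
        rho act (pderiv v p) (op act w b) := by
      have e : pderiv v (p * X w) = p * pderiv v (X w) + pderiv v p * X w := by
        rw [Derivation.leibniz, smul_eq_mul, smul_eq_mul, mul_comm (X w)]
      rw [e, map_add, LinearMap.add_apply, rho_mul, h, rho_mul, rho_X]
    rw [h2, rho_mul, rho_X, hp, leib_op leibX, map_add, rho_mul, rho_X]
    abel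

/-- elements with coefficients in a submodule -/
def Nz (κ : Type) (N : Submodule E H) : Submodule E (Hz κ H) where
  carrier := {b | ∀ γ, b γ ∈ N}
  zero_mem' := fun _ => N.zero_mem
  add_mem' := fun ha hb γ => N.add_mem (ha γ) (hb γ)
  smul_mem' := fun c _ hb γ => N.smul_mem c (hb γ)

theorem mem_Nz {N : Submodule E H} {b : Hz κ H} : b ∈ Nz κ N ↔ ∀ γ, b γ ∈ N := Iff.rfl

theorem op_mem {N : Submodule E H} (hact : ∀ i, ∀ b ∈ N, act (X i) b ∈ N) (v : Fin n ⊕ κ) :
    ∀ b ∈ Nz κ N, op act v b ∈ Nz κ N := by
  intro b hb γ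
  rcases v with i | j
  · rw [op_inl]; exact hact i _ (hb γ)
  · rw [op_inr]
    split_ifs
    · exact N.zero_mem
    · exact hb _

theorem dop_mem {N : Submodule E H} (hd : ∀ i, ∀ b ∈ N, D i b ∈ N) (v : Fin n ⊕ κ) :
    ∀ b ∈ Nz κ N, dop D v b ∈ Nz κ N := by
  intro b hb γ
  rcases v with i | j
  · rw [dop_inl]; exact hd i _ (hb γ)
  · rw [dop_inr]; exact N.smul_mem _ (hb _)

theorem rho_mem {N : Submodule E H} (hact : ∀ i, ∀ b ∈ N, act (X i) b ∈ N)
    (p : MvPolynomial (Fin n ⊕ κ) E) : ∀ b ∈ Nz κ N, rho act p b ∈ Nz κ N := by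
  induction p using MvPolynomial.induction_on with
  | C a => intro b hb; rw [rho_C]; exact (Nz κ N).smul_mem _ hb
  | add p q hp hq =>
    intro b hb
    rw [map_add, LinearMap.add_apply]
    exact (Nz κ N).add_mem (hp b hb) (hq b hb)
  | mul_X p w hp =>
    intro b hb
    rw [rho_mul, rho_X]
    exact hp _ (op_mem hact w b hb)

/-- change of coefficients -/
noncomputable def io (κ : Type) (E : Type) [CommRing E] [Algebra ℂ E] :
    MvPolynomial (Fin n ⊕ κ) ℂ →+* MvPolynomial (Fin n ⊕ κ) E := MvPolynomial.map (algebraMap ℂ E)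

/-- the constant series -/
noncomputable def cs (κ : Type) (h : H) : Hz κ H := by
  classical
  exact Pi.single 0 h

theorem cs_zero (h : H) : cs κ h 0 = h := by
  classical
  unfold cs; simp

theorem cs_ne {γ : κ →₀ ℕ} (hγ : γ ≠ 0) (h : H) : cs κ h γ = 0 := by
  classical
  unfold cs; rw [Pi.single_eq_of_ne hγ]

theorem cs_mem {N : Submodule E H} {h : H} (hh : h ∈ N) : cs κ h ∈ Nz κ N := by
  intro γ
  by_cases hγ : γ = 0
  · subst hγ; rw [cs_zero]; exact hh
  · rw [cs_ne hγ]; exact N.zero_mem

theorem cs_smul (c : E) (h : H) : cs κ (c • h) = c • cs κ h := by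
  funext γ
  rw [Pi.smul_apply]
  by_cases hγ : γ = 0
  · subst hγ; rw [cs_zero, cs_zero]
  · rw [cs_ne hγ, cs_ne hγ, smul_zero]

theorem cs_add (h h' : H) : cs κ (h + h') = cs κ h + cs κ h' := by
  funext γ
  rw [Pi.add_apply]
  by_cases hγ : γ = 0
  · subst hγ; rw [cs_zero, cs_zero, cs_zero]
  · rw [cs_ne hγ, cs_ne hγ, cs_ne hγ, add_zero]

/-- polynomials in the first variables act coefficientwise -/
theorem rho_ren (p : MvPolynomial (Fin n) ℂ) (b : Hz κ H) (γ : κ →₀ ℕ) :
    rho act (io κ E (rename Sum.inl p)) b γ = act p (b γ) := by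
  induction p using MvPolynomial.induction_on generalizing b with
  | C a =>
    have h : act (C a) = algebraMap ℂ _ a := by
      rw [← act.commutes a]; rfl
    rw [rename_C, io, map_C, rho_C, h, Module.algebraMap_end_apply, Pi.smul_apply, algebraMap_smul]
  | add p q hp hq =>
    simp only [map_add, LinearMap.add_apply, Pi.add_apply, hp, hq]
  | mul_X p j hp =>
    rw [map_mul, map_mul, rho_mul, hp, map_mul, Module.End.mul_apply, rename_X, io, map_X, rho_X,
      op_inl]

theorem rho_ren_cs (p : MvPolynomial (Fin n) ℂ) (h : H) :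
    rho act (io κ E (rename Sum.inl p)) (cs κ h) = cs κ (act p h) := by
  funext γ
  rw [rho_ren]
  by_cases hγ : γ = 0
  · subst hγ; rw [cs_zero, cs_zero]
  · rw [cs_ne hγ, cs_ne hγ, map_zero]

end

end Pool.Agent.ND.H19
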