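import Pool.Agent.Helper19_ND.LocA

/-!
# ND, module LOC, part 3: Laurent series in the scaling parameter
-/

set_option autoImplicit false
set_option linter.unusedSectionVars false

namespace Pool.Agent.ND.H19

open MvPolynomial

section

variable {n : ℕ} {κ E H : Type} [CommRing E] [Algebra ℂ E] [AddCommGroup H]
  [Module ℂ H] [Module E H] [IsScalarTower ℂ E H]
  (act : MvPolynomial (Fin n) ℂ →ₐ[ℂ] Module.End E H) (D : Fin n → Module.End E H)

/-- Laurent series -/
abbrev Bz (κ H : Type) : Type := ℤ → Hz κ H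

/-- the variables on `Bz` -/
noncomputable def opB (v : Fin n ⊕ κ) : Module.End E (Bz κ H) where
  toFun b e := op act v (b (e - 1))
  map_add' a b := by funext e; exact map_add _ _ _
  map_smul' c b := by funext e; exact map_smul (op act v) c (b (e - 1))

/-- the derivations on `Bz` -/
noncomputable def dopB (v : Fin n ⊕ κ) : Module.End E (Bz κ H) where
  toFun b e := dop D v (b (e + 1))
  map_add' a b := by funext e; exact map_add _ _ _
  map_smul' c b := by funext e; exact map_smul (dop D v) c (b (e + 1))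

/-- the shift -/
def Sh (m : ℤ) : Module.End E (Bz κ H) where
  toFun b e := b (e + m)
  map_add' _ _ := rfl
  map_smul' _ _ := rfl

theorem opB_apply (v : Fin n ⊕ κ) (b : Bz κ H) (e : ℤ) : opB act v b e = op act v (b (e - 1)) := rfl

theorem dopB_apply (v : Fin n ⊕ κ) (b : Bz κ H) (e : ℤ) :
    dopB D v b e = dop D v (b (e + 1)) := rfl

theorem Sh_apply (m : ℤ) (b : Bz κ H) (e : ℤ) : Sh (E := E) m b e = b (e + m) := rfl

theorem Sh_Sh (m k : ℤ) (b : Bz κ H) : Sh (E := E) m (Sh (E := E) k b) = Sh (E := E) (m + k) b := by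
  funext e
  rw [Sh_apply, Sh_apply, Sh_apply, add_assoc]

theorem Sh_zero (b : Bz κ H) : Sh (E := E) 0 b = b := by
  funext e
  rw [Sh_apply, add_zero]

theorem opB_Sh (v : Fin n ⊕ κ) (m : ℤ) (b : Bz κ H) :
    opB act v (Sh (E := E) m b) = Sh (E := E) m (opB act v b) := by
  funext e
  rw [opB_apply, Sh_apply, Sh_apply, opB_apply, sub_add_eq_add_sub]

theorem dopB_Sh (v : Fin n ⊕ κ) (m : ℤ) (b : Bz κ H) :
    dopB D v (Sh (E := E) m b) = Sh (E := E) m (dopB D v b) := by
  funext e
  rw [dopB_apply, Sh_apply, Sh_apply, dopB_apply]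
  congr 2; ring

theorem opB_comm (v w : Fin n ⊕ κ) : opB act v * opB act w = opB act w * opB (κ := κ) act v := by
  refine LinearMap.ext fun b => ?_
  funext e
  rw [Module.End.mul_apply, Module.End.mul_apply, opB_apply, opB_apply, opB_apply, opB_apply,
    ← Module.End.mul_apply, ← Module.End.mul_apply, op_comm]

/-- the action of the polynomials -/
noncomputable def actB : MvPolynomial (Fin n ⊕ κ) ℂ →ₐ[ℂ] Module.End E (Bz κ H) :=
  Classical.choose (exists_hom (k := ℂ) (opB act) (opB_comm act))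

theorem actB_X (v : Fin n ⊕ κ) : actB act (X v) = opB act v :=
  Classical.choose_spec (exists_hom (k := ℂ) (opB act) (opB_comm act)) v

theorem actB_C (c : ℂ) (b : Bz κ H) : actB act (C c) b = algebraMap ℂ E c • b := by
  have h : actB act (C c) = algebraMap ℂ (Module.End E (Bz κ H)) c := (actB act).commutes c
  rw [h, Module.algebraMap_end_apply, algebraMap_smul]

theorem actB_mul (p q : MvPolynomial (Fin n ⊕ κ) ℂ) (b : Bz κ H) :
    actB act (p * q) b = actB act p (actB act q b) := by
  rw [map_mul, Module.End.mul_apply]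

theorem actB_Sh (p : MvPolynomial (Fin n ⊕ κ) ℂ) (m : ℤ) (b : Bz κ H) :
    actB act p (Sh (E := E) m b) = Sh (E := E) m (actB act p b) := by
  induction p using MvPolynomial.induction_on generalizing b with
  | C a => rw [actB_C, actB_C, map_smul]
  | add p q hp hq => rw [map_add, LinearMap.add_apply, LinearMap.add_apply, hp, hq, map_add]
  | mul_X p w hp => rw [actB_mul, actB_mul, actB_X, opB_Sh, hp]

variable {act D}

theorem leib_B (leibX : ∀ i j b, D i (act (X j) b) = act (pderiv i (X j)) b + act (X j) (D i b))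
    (v w : Fin n ⊕ κ) (b : Bz κ H) : dopB D v (actB act (X w) b)
      = actB act (pderiv v (X w)) b + actB act (X w) (dopB D v b) := by
  classical
  have h : actB act (pderiv v (X w : MvPolynomial (Fin n ⊕ κ) ℂ)) b = if v = w then b else 0 := by
    rw [pderiv_X]
    by_cases h : v = w
    · subst h; simp
    · rw [if_neg h, Pi.single_eq_of_ne (Ne.symm h), map_zero, LinearMap.zero_apply]
  rw [h, actB_X]
  funext e
  rw [Pi.add_apply, dopB_apply, opB_apply, opB_apply, dopB_apply, leib_op leibX]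
  have e1 : e + 1 - 1 = e := by ring
  have e2 : e - 1 + 1 = e := by ring
  rw [e1, e2]
  congr 1
  split_ifs <;> rfl

/-- elements with coefficients in a submodule -/
def NB (κ : Type) (N : Submodule E H) : Submodule E (Bz κ H) where
  carrier := {b | ∀ e, b e ∈ Nz κ N}
  zero_mem' := fun _ => (Nz κ N).zero_mem
  add_mem' := fun ha hb e => (Nz κ N).add_mem (ha e) (hb e)
  smul_mem' := fun c _ hb e => (Nz κ N).smul_mem c (hb e)

theorem mem_NB {N : Submodule E H} {b : Bz κ H} : b ∈ NB κ N ↔ ∀ e γ, b e γ ∈ N := Iff.rfl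

theorem opB_mem {N : Submodule E H} (hact : ∀ i, ∀ b ∈ N, act (X i) b ∈ N) (v : Fin n ⊕ κ) :
    ∀ b ∈ NB κ N, actB act (X v) b ∈ NB κ N := by
  intro b hb e
  rw [actB_X, opB_apply]
  exact op_mem hact v _ (hb _)

theorem dopB_mem {N : Submodule E H} (hd : ∀ i, ∀ b ∈ N, D i b ∈ N) (v : Fin n ⊕ κ) :
    ∀ b ∈ NB κ N, dopB D v b ∈ NB κ N := by
  intro b hb e
  rw [dopB_apply]
  exact dop_mem hd v _ (hb _)

theorem Sh_mem {N : Submodule E H} (m : ℤ) : ∀ b ∈ NB κ N, Sh (E := E) m b ∈ NB κ N := by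
  intro b hb e
  rw [Sh_apply]
  exact hb _

/-! ### the product of a power series with an element -/

variable (act)

/-- the product -/
noncomputable def st (G : PowerSeries (MvPolynomial (Fin n ⊕ κ) E)) (h : Hz κ H) : Bz κ H :=
  fun e => if 0 ≤ e then rho act (PowerSeries.coeff e.toNat G) h else 0

variable {act}

theorem st_nat (G : PowerSeries (MvPolynomial (Fin n ⊕ κ) E)) (h : Hz κ H) (k : ℕ) :
    st act G h (k : ℤ) = rho act (PowerSeries.coeff k G) h := by
  unfold st
  rw [if_pos (Int.natCast_nonneg k), Int.toNat_natCast]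

theorem st_neg (G : PowerSeries (MvPolynomial (Fin n ⊕ κ) E)) (h : Hz κ H) {e : ℤ} (he : e < 0) :
    st act G h e = 0 := by
  unfold st
  rw [if_neg (not_le.2 he)]

theorem st_add_left (G G' : PowerSeries (MvPolynomial (Fin n ⊕ κ) E)) (h : Hz κ H) :
    st act (G + G') h = st act G h + st act G' h := by
  funext e
  rw [Pi.add_apply]
  unfold st
  split_ifs
  · rw [map_add, map_add, LinearMap.add_apply]
  · rw [add_zero]

theorem st_C_mul (c : E) (G : PowerSeries (MvPolynomial (Fin n ⊕ κ) E)) (h : Hz κ H) :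
    st act (PowerSeries.C (C c) * G) h = c • st act G h := by
  funext e
  rw [Pi.smul_apply]
  unfold st
  split_ifs
  · rw [PowerSeries.coeff_C_mul, rho_mul, rho_C]
  · rw [smul_zero]

theorem st_smul (c : E) (G : PowerSeries (MvPolynomial (Fin n ⊕ κ) E)) (h : Hz κ H) :
    st act G (c • h) = c • st act G h := by
  funext e
  rw [Pi.smul_apply]
  unfold st
  split_ifs
  · rw [map_smul]
  · rw [smul_zero]

theorem st_rho (p : MvPolynomial (Fin n ⊕ κ) E) (G : PowerSeries (MvPolynomial (Fin n ⊕ κ) E))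
    (h : Hz κ H) : st act (PowerSeries.C p * G) h = st act G (rho act p h) := by
  funext e
  unfold st
  split_ifs
  · rw [PowerSeries.coeff_C_mul, mul_comm, rho_mul]
  · rfl

theorem st_X (G : PowerSeries (MvPolynomial (Fin n ⊕ κ) E)) (h : Hz κ H) :
    st act (PowerSeries.X * G) h = Sh (E := E) (-1) (st act G h) := by
  funext e
  rw [Sh_apply]
  rcases lt_trichotomy e 0 with he | he | he
  · rw [st_neg _ _ he, st_neg _ _ (by omega)]
  · subst he
    rw [st_neg G h (e := 0 + -1) (by norm_num)]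
    have := st_nat (act := act) (PowerSeries.X * G) h 0
    rw [Nat.cast_zero] at this
    rw [this]
    simp
  · obtain ⟨k, rfl⟩ : ∃ k : ℕ, e = ((k + 1 : ℕ) : ℤ) := ⟨(e - 1).toNat, by omega⟩
    have e1 : ((k + 1 : ℕ) : ℤ) + -1 = (k : ℤ) := by push_cast; ring
    rw [e1, st_nat, st_nat, PowerSeries.coeff_succ_X_mul]

theorem st_Xpow (d : ℕ) (G : PowerSeries (MvPolynomial (Fin n ⊕ κ) E)) (h : Hz κ H) :
    st act (PowerSeries.X ^ d * G) h = Sh (E := E) (-(d : ℤ)) (st act G h) := by
  induction d with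
  | zero => rw [pow_zero, one_mul, Nat.cast_zero, neg_zero, Sh_zero]
  | succ d ih =>
    rw [pow_succ', mul_assoc, st_X, ih, Sh_Sh]
    congr 2; push_cast; ring

theorem opB_st (v : Fin n ⊕ κ) (G : PowerSeries (MvPolynomial (Fin n ⊕ κ) E)) (h : Hz κ H) :
    opB act v (st act G h) = st act (PowerSeries.X * PowerSeries.C (X v) * G) h := by
  rw [mul_assoc, st_X]
  funext e
  rw [opB_apply, Sh_apply, ← sub_eq_add_neg]
  unfold st
  split_ifs
  · rw [PowerSeries.coeff_C_mul, rho_mul, rho_X]
  · rw [map_zero]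

/-- the derivation of the coefficients -/
noncomputable def pdA (v : Fin n ⊕ κ) :
    MvPolynomial (Fin n ⊕ κ) E →+ MvPolynomial (Fin n ⊕ κ) E :=
  (pderiv v).toLinearMap.toAddMonoidHom

theorem pdA_apply (v : Fin n ⊕ κ) (p : MvPolynomial (Fin n ⊕ κ) E) : pdA v p = pderiv v p := rfl

theorem pdA_mul (v : Fin n ⊕ κ) (a b : MvPolynomial (Fin n ⊕ κ) E) :
    pdA v (a * b) = a * pdA v b + pdA v a * b := by
  rw [pdA_apply, pdA_apply, pdA_apply, Derivation.leibniz, smul_eq_mul, smul_eq_mul,
    mul_comm b]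

theorem dopB_st (leibX : ∀ i j b, D i (act (X j) b) = act (pderiv i (X j)) b + act (X j) (D i b))
    (v : Fin n ⊕ κ) (G : PowerSeries (MvPolynomial (Fin n ⊕ κ) E)) (h : Hz κ H) :
    dopB D v (st act G h) = Sh (E := E) 1 (st act (mD (pdA v) G) h + st act G (dop D v h)) := by
  funext e
  rw [dopB_apply, Sh_apply, Pi.add_apply]
  unfold st
  split_ifs
  · rw [leib_rho leibX, coeff_mD, pdA_apply]
  · rw [map_zero, add_zero]

theorem st_mem {N : Submodule E H} (hact : ∀ i, ∀ b ∈ N, act (X i) b ∈ N)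
    (G : PowerSeries (MvPolynomial (Fin n ⊕ κ) E)) {h : Hz κ H} (hh : h ∈ Nz κ N) :
    st act G h ∈ NB κ N := by
  intro e
  unfold st
  split_ifs
  · exact rho_mem hact _ _ hh
  · exact (Nz κ N).zero_mem

/-! ### the scaled polynomials -/

/-- the polynomial `p(T x)` -/
noncomputable def tau (κ : Type) (E : Type) [CommRing E] [Algebra ℂ E] :
    MvPolynomial (Fin n ⊕ κ) ℂ →ₐ[ℂ] PowerSeries (MvPolynomial (Fin n ⊕ κ) E) :=
  MvPolynomial.aeval fun v => PowerSeries.X * PowerSeries.C (X v)

theorem tau_X (v : Fin n ⊕ κ) : tau κ E (X v) = PowerSeries.X * PowerSeries.C (X v) :=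
  aeval_X _ _

theorem tau_C (c : ℂ) : tau (n := n) κ E (C c) = PowerSeries.C (C (algebraMap ℂ E c)) := by
  rw [tau, aeval_C]
  rw [PowerSeries.algebraMap_apply]
  rfl

theorem actB_st (p : MvPolynomial (Fin n ⊕ κ) ℂ) (G : PowerSeries (MvPolynomial (Fin n ⊕ κ) E))
    (h : Hz κ H) : actB act p (st act G h) = st act (tau κ E p * G) h := by
  induction p using MvPolynomial.induction_on generalizing G with
  | C a => rw [actB_C, tau_C, st_C_mul]
  | add p q hp hq => rw [map_add, LinearMap.add_apply, hp, hq, map_add, add_mul, st_add_left]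
  | mul_X p w hp =>
    rw [actB_mul, actB_X, opB_st, hp, map_mul, tau_X, mul_assoc, mul_assoc, mul_assoc]

theorem mD_tau (v : Fin n ⊕ κ) (p : MvPolynomial (Fin n ⊕ κ) ℂ) :
    mD (pdA v) (tau κ E p) = PowerSeries.X * tau κ E (pderiv v p) := by
  classical
  have hadd : ∀ a b : PowerSeries (MvPolynomial (Fin n ⊕ κ) E),
      mD (pdA v) (a + b) = mD (pdA v) a + mD (pdA v) b := by
    intro a b
    ext1 m
    rw [map_add, coeff_mD, coeff_mD, coeff_mD, map_add, map_add]
  have hC : ∀ q : MvPolynomial (Fin n ⊕ κ) E,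
      mD (pdA v) (PowerSeries.C q) = PowerSeries.C (pderiv v q) := by
    intro q
    ext1 m
    rw [coeff_mD, PowerSeries.coeff_C, PowerSeries.coeff_C]
    split_ifs
    · rfl
    · rw [map_zero]
  have hXs : mD (pdA v) (PowerSeries.X : PowerSeries (MvPolynomial (Fin n ⊕ κ) E)) = 0 := by
    ext1 m
    rw [coeff_mD, PowerSeries.coeff_X, map_zero]
    split_ifs
    · exact D_one (pdA_mul v)
    · rw [map_zero]
  induction p using MvPolynomial.induction_on with
  | C a => rw [tau_C, hC, pderiv_C, pderiv_C, map_zero, map_zero, mul_zero]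
  | add p q hp hq => rw [map_add, hadd, hp, hq, map_add, map_add, mul_add]
  | mul_X p w hp =>
    have e1 : pderiv v (p * X w) = p * pderiv v (X w) + pderiv v p * X w := by
      rw [Derivation.leibniz, smul_eq_mul, smul_eq_mul, mul_comm (X w)]
    have e2 : tau κ E (pderiv v (X w : MvPolynomial (Fin n ⊕ κ) ℂ)) =
        PowerSeries.C (pderiv v (X w : MvPolynomial (Fin n ⊕ κ) E)) := by
      rw [pderiv_X, pderiv_X]
      by_cases h : v = w
      · subst h; simp
      · rw [Pi.single_eq_of_ne (Ne.symm h), Pi.single_eq_of_ne (Ne.symm h), map_zero, map_zero]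
    rw [map_mul, mD_mul (pdA_mul v), hp, tau_X, mD_mul (pdA_mul v), hXs, hC, zero_mul, zero_add,
      e1, map_add, map_mul, map_mul, tau_X, e2]
    ring

theorem tau_const (p : MvPolynomial (Fin n ⊕ κ) ℂ) :
    PowerSeries.constantCoeff (tau κ E p) = C (algebraMap ℂ E (constantCoeff p)) := by
  induction p using MvPolynomial.induction_on with
  | C a => rw [tau_C, PowerSeries.constantCoeff_C, constantCoeff_C]
  | add p q hp hq => rw [map_add, map_add, hp, hq, map_add, map_add, map_add]
  | mul_X p w hp =>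
    rw [map_mul, map_mul, tau_X, map_mul, PowerSeries.constantCoeff_X, zero_mul, mul_zero, map_mul,
      constantCoeff_X, mul_zero, map_zero, map_zero]

theorem tau_monomial (m : (Fin n ⊕ κ) →₀ ℕ) (a : ℂ) : tau κ E (monomial m a) =
    PowerSeries.X ^ (∑ v ∈ m.support, m v) * PowerSeries.C (io κ E (monomial m a)) := by
  rw [monomial_eq, Finsupp.prod, io, map_mul, map_mul, map_C, tau_C, map_prod, map_prod,
    map_mul, map_prod]
  have h1 : ∀ v ∈ m.support, tau κ E (X v ^ m v) = PowerSeries.X ^ m v *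
      PowerSeries.C (MvPolynomial.map (algebraMap ℂ E) (X v ^ m v)) := by
    intro v _
    rw [map_pow, tau_X, map_pow, map_X, map_pow, mul_pow]
  rw [Finset.prod_congr rfl h1, Finset.prod_mul_distrib, Finset.prod_pow_eq_pow_sum]
  ring

theorem tau_homog {p : MvPolynomial (Fin n ⊕ κ) ℂ} {d : ℕ} (hp : p.IsHomogeneous d) :
    tau κ E p = PowerSeries.X ^ d * PowerSeries.C (io κ E p) := by
  have h2 : tau κ E p = ∑ m ∈ p.support, tau κ E (monomial m (coeff m p)) := by
    conv_lhs => rw [p.as_sum]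
    rw [map_sum]
  have h3 : io κ E p = ∑ m ∈ p.support, io κ E (monomial m (coeff m p)) := by
    conv_lhs => rw [p.as_sum]
    rw [map_sum]
  rw [h2, h3, map_sum, Finset.mul_sum]
  refine Finset.sum_congr rfl fun m hm => ?_
  rw [tau_monomial]
  have h4 : ∑ v ∈ m.support, m v = d := by
    have := hp (mem_support_iff.1 hm)
    rw [← this, Finsupp.weight_apply, Finsupp.sum]
    simp
  rw [h4]

end

end Pool.Agent.ND.H19
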