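import Mathlib

/-!
# ND, module LOC, part 1: powers of power series with constant term `1` over a commutative
`ℂ`-algebra, the exponent is a constant (adapted from module BPOW of helper34)
-/

set_option autoImplicit false
set_option linter.unusedSectionVars false

namespace Pool.Agent.ND.H19

open Finset PowerSeries

section

variable {R : Type} [CommRing R] [Algebra ℂ R]

/-- `t d/dt` -/
noncomputable def TT (Y : PowerSeries R) : PowerSeries R :=
  PowerSeries.mk fun n => (n : R) * PowerSeries.coeff n Y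

/-- coefficientwise application -/
noncomputable def mD (D : R →+ R) (Y : PowerSeries R) : PowerSeries R :=
  PowerSeries.mk fun n => D (PowerSeries.coeff n Y)

theorem coeff_TT (Y : PowerSeries R) (n : ℕ) :
    PowerSeries.coeff n (TT Y) = (n : R) * PowerSeries.coeff n Y := by
  unfold TT; rw [PowerSeries.coeff_mk]

theorem coeff_mD (D : R →+ R) (Y : PowerSeries R) (n : ℕ) :
    PowerSeries.coeff n (mD D Y) = D (PowerSeries.coeff n Y) := by
  unfold mD; rw [PowerSeries.coeff_mk]

theorem TT_mul (Y Z : PowerSeries R) : TT (Y * Z) = TT Y * Z + Y * TT Z := by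
  ext n
  rw [map_add, coeff_TT, PowerSeries.coeff_mul, PowerSeries.coeff_mul, PowerSeries.coeff_mul,
    Finset.mul_sum, ← Finset.sum_add_distrib]
  refine Finset.sum_congr rfl fun p hp => ?_
  rw [coeff_TT, coeff_TT]
  have h1 : (n : R) = (p.1 : R) + (p.2 : R) := by
    rw [Finset.HasAntidiagonal.mem_antidiagonal] at hp
    rw [← hp]; push_cast; ring
  rw [h1]; ring

theorem TT_add (Y Z : PowerSeries R) : TT (Y + Z) = TT Y + TT Z := by
  ext n
  rw [map_add, coeff_TT, coeff_TT, coeff_TT, map_add]; ring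

theorem TT_sub (Y Z : PowerSeries R) : TT (Y - Z) = TT Y - TT Z := by
  ext n
  rw [map_sub, coeff_TT, coeff_TT, coeff_TT, map_sub]; ring

theorem TT_C (c : R) : TT (C c) = 0 := by
  ext n
  rw [coeff_TT, PowerSeries.coeff_C]
  split_ifs with h
  · rw [h]; simp
  · simp

theorem TT_one : TT (1 : PowerSeries R) = 0 := by
  have := TT_C (1 : R)
  rwa [map_one] at this

section

variable {D : R →+ R} (hD : ∀ a b, D (a * b) = a * D b + D a * b)

include hD

theorem D_one : D 1 = 0 := by
  have h := hD 1 1
  simp only [mul_one, one_mul] at h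
  exact left_eq_add.1 h

theorem D_nat (n : ℕ) : D (n : R) = 0 := by
  rw [← nsmul_one, map_nsmul, D_one hD, smul_zero]

theorem mD_mul (Y Z : PowerSeries R) :
    mD D (Y * Z) = mD D Y * Z + Y * mD D Z := by
  ext n
  rw [map_add, coeff_mD, PowerSeries.coeff_mul, PowerSeries.coeff_mul, PowerSeries.coeff_mul,
    map_sum, ← Finset.sum_add_distrib]
  refine Finset.sum_congr rfl fun p _ => ?_
  rw [coeff_mD, coeff_mD, hD]
  ring

theorem TT_mD (Y : PowerSeries R) : TT (mD D Y) = mD D (TT Y) := by
  ext n
  rw [coeff_TT, coeff_mD, coeff_mD, coeff_TT, hD, D_nat hD, zero_mul, add_zero]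

theorem mD_one : mD D (1 : PowerSeries R) = 0 := by
  ext n
  rw [coeff_mD, PowerSeries.coeff_one]
  split_ifs with h
  · simp [D_one hD]
  · simp

theorem mD_C_mul {c : R} (hc : D c = 0) (Y : PowerSeries R) : mD D (C c * Y) = C c * mD D Y := by
  ext n
  rw [coeff_mD, PowerSeries.coeff_C_mul, PowerSeries.coeff_C_mul, coeff_mD, hD, hc, zero_mul,
    add_zero]

end

theorem nat_cancel {n : ℕ} (hn : n ≠ 0) {x : R} (h : (n : R) * x = 0) : x = 0 := by
  have h1 : algebraMap ℂ R ((n : ℂ)⁻¹) * (n : R) = 1 := by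
    rw [← map_natCast (algebraMap ℂ R), ← map_mul, inv_mul_cancel₀ (Nat.cast_ne_zero.2 hn), map_one]
  calc x = (algebraMap ℂ R ((n : ℂ)⁻¹) * (n : R)) * x := by rw [h1, one_mul]
    _ = algebraMap ℂ R ((n : ℂ)⁻¹) * ((n : R) * x) := by ring
    _ = 0 := by rw [h, mul_zero]

/-- uniqueness of the solution of `T Y = G Y` -/
theorem TT_unique (G Z : PowerSeries R) (hG : PowerSeries.constantCoeff G = 0)
    (hZ : PowerSeries.constantCoeff Z = 0) (h : TT Z = G * Z) : Z = 0 := by
  ext n
  rw [map_zero]
  induction n using Nat.strong_induction_on with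
  | _ n ih =>
    by_cases hn : n = 0
    · rw [hn]; simpa using hZ
    · have h1 := congrArg (PowerSeries.coeff n) h
      rw [coeff_TT, PowerSeries.coeff_mul] at h1
      rw [Finset.sum_eq_zero] at h1
      · exact nat_cancel hn h1
      · intro p hp
        rw [Finset.HasAntidiagonal.mem_antidiagonal] at hp
        by_cases h3 : p.1 = 0
        · rw [h3, PowerSeries.coeff_zero_eq_constantCoeff_apply, hG, zero_mul]
        · rw [ih p.2 (by omega), mul_zero]

/-- the solution of `T Y = G Y` with constant term `1` -/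
noncomputable def sol (G : PowerSeries R) : ℕ → R
  | 0 => 1
  | (n + 1) => (∑ j : Fin (n + 1), sol G j.1 * PowerSeries.coeff (n + 1 - j.1) G) *
      algebraMap ℂ R (((n + 1 : ℕ) : ℂ)⁻¹)
decreasing_by exact j.2

theorem TT_sol (G : PowerSeries R) (hG : PowerSeries.constantCoeff G = 0) :
    TT (PowerSeries.mk (sol G)) = G * PowerSeries.mk (sol G) := by
  ext n
  rw [coeff_TT, mul_comm G, PowerSeries.coeff_mul, PowerSeries.coeff_mk]
  rcases n with _ | n
  · simp [hG]
  · rw [Finset.Nat.sum_antidiagonal_eq_sum_range_succ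
      (fun i j => PowerSeries.coeff i (PowerSeries.mk (sol G)) * PowerSeries.coeff j G) (n + 1),
      Finset.sum_range_succ, Nat.sub_self, PowerSeries.coeff_zero_eq_constantCoeff_apply, hG,
      mul_zero, add_zero]
    conv_lhs => rw [sol]
    have hne : ((n + 1 : ℕ) : R) * algebraMap ℂ R (((n + 1 : ℕ) : ℂ)⁻¹) = 1 := by
      rw [← map_natCast (algebraMap ℂ R), ← map_mul,
        mul_inv_cancel₀ (Nat.cast_ne_zero.2 (Nat.succ_ne_zero n)), map_one]
    rw [mul_comm (∑ j : Fin (n + 1), sol G j.1 * PowerSeries.coeff (n + 1 - j.1) G), ← mul_assoc,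
      hne, one_mul]
    rw [Fin.sum_univ_eq_sum_range (fun j => sol G j * PowerSeries.coeff (n + 1 - j) G) (n + 1)]
    refine Finset.sum_congr rfl fun j _ => ?_
    rw [PowerSeries.coeff_mk]

/-- the power `P ^ c` -/
noncomputable def pwS (P : PowerSeries R) (c : R) : PowerSeries R :=
  PowerSeries.mk (sol (C c * (TT P * PowerSeries.invOfUnit P 1)))

theorem bpow_spec (P : PowerSeries R) (hP : PowerSeries.constantCoeff P = 1) :
    (∀ c, PowerSeries.constantCoeff (pwS P c) = 1) ∧ (∀ c, P * pwS P c = pwS P (c + 1)) ∧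
      ∀ (D : R →+ R) (c : R), (∀ a b, D (a * b) = a * D b + D a * b) → D c = 0 →
        mD D (pwS P c) = C c * (mD D P * pwS P (c - 1)) := by
  have hPU : P * PowerSeries.invOfUnit P 1 = 1 := PowerSeries.mul_invOfUnit P 1 (by rw [hP]; rfl)
  set U := PowerSeries.invOfUnit P 1 with hU
  let G : R → PowerSeries R := fun c => C c * (TT P * U)
  have hTP0 : PowerSeries.constantCoeff (TT P) = 0 := by
    rw [← PowerSeries.coeff_zero_eq_constantCoeff_apply, coeff_TT]; simp
  have hG0 : ∀ c, PowerSeries.constantCoeff (G c) = 0 := by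
    intro c
    change PowerSeries.constantCoeff (C c * (TT P * U)) = 0
    rw [map_mul, map_mul, hTP0, zero_mul, mul_zero]
  set pw : R → PowerSeries R := pwS P with hpwdef
  have hpw : ∀ c, TT (pw c) = G c * pw c := fun c => TT_sol (G c) (hG0 c)
  have hpw0 : ∀ c, PowerSeries.constantCoeff (pw c) = 1 := by
    intro c
    change PowerSeries.constantCoeff (PowerSeries.mk (sol (G c))) = 1
    rw [← PowerSeries.coeff_zero_eq_constantCoeff_apply, PowerSeries.coeff_mk, sol]
  have hmul : ∀ c, P * pw c = pw (c + 1) := by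
    intro c
    have h1 : P * pw c - pw (c + 1) = 0 := by
      refine TT_unique (G (c + 1)) _ (hG0 _) ?_ ?_
      · rw [map_sub, map_mul, hP, hpw0, hpw0]; ring
      · rw [TT_sub, TT_mul, hpw, hpw, mul_sub]
        congr 1
        change TT P * pw c + P * ((C c * (TT P * U)) * pw c) = (C (c + 1) * (TT P * U)) * (P * pw c)
        rw [map_add, map_one]
        have e2 : TT P * U * (P * pw c) = TT P * pw c := by
          calc TT P * U * (P * pw c) = (P * U) * (TT P * pw c) := by ring
            _ = TT P * pw c := by rw [hPU, one_mul]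
        calc TT P * pw c + P * ((C c * (TT P * U)) * pw c)
            = TT P * pw c + C c * (TT P * U * (P * pw c)) := by ring
          _ = TT P * U * (P * pw c) + C c * (TT P * U * (P * pw c)) := by rw [e2]
          _ = _ := by ring
    exact sub_eq_zero.1 h1
  refine ⟨hpw0, hmul, ?_⟩
  intro D c hD hc
  -- the derivatives of `U`
  have hTU : TT U = -(TT P * U * U) := by
    have h1 : TT (P * U) = 0 := by rw [hPU, TT_one]
    rw [TT_mul] at h1
    calc TT U = (P * U) * TT U := by rw [hPU, one_mul]
      _ = U * (TT P * U + P * TT U) - TT P * U * U := by ring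
      _ = _ := by rw [h1]; ring
  have hDU : mD D U = -(mD D P * U * U) := by
    have h1 : mD D (P * U) = 0 := by rw [hPU, mD_one hD]
    rw [mD_mul hD] at h1
    calc mD D U = (P * U) * mD D U := by rw [hPU, one_mul]
      _ = U * (mD D P * U + P * mD D U) - mD D P * U * U := by ring
      _ = _ := by rw [h1]; ring
  have hDP0 : PowerSeries.constantCoeff (mD D P) = 0 := by
    rw [← PowerSeries.coeff_zero_eq_constantCoeff_apply, coeff_mD,
      PowerSeries.coeff_zero_eq_constantCoeff_apply, hP, D_one hD]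
  have hcomm : TT (mD D P * U) = mD D (TT P * U) := by
    rw [TT_mul, mD_mul hD, TT_mD hD, hTU, hDU]
    ring
  have hZ : mD D (pw c) - C c * (mD D P * U * pw c) = 0 := by
    refine TT_unique (G c) _ (hG0 _) ?_ ?_
    · have e1 : PowerSeries.constantCoeff (mD D (pw c)) = 0 := by
        rw [← PowerSeries.coeff_zero_eq_constantCoeff_apply, coeff_mD,
          PowerSeries.coeff_zero_eq_constantCoeff_apply, hpw0, D_one hD]
      have e2 : PowerSeries.constantCoeff (C c * (mD D P * U * pw c)) = 0 := by
        rw [map_mul, map_mul, map_mul, hDP0, zero_mul, zero_mul, mul_zero]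
      rw [map_sub, e1, e2, sub_zero]
    · rw [TT_sub, TT_mD hD, hpw, mD_mul hD, TT_mul, TT_C, zero_mul, zero_add, TT_mul, hcomm, hpw,
        mul_sub]
      change mD D (C c * (TT P * U)) * pw c + G c * mD D (pw c) - _ = _
      rw [mD_C_mul hD hc]
      ring
  have h1 := sub_eq_zero.1 hZ
  rw [h1]
  congr 1
  have h2 := hmul (c - 1)
  rw [sub_add_cancel] at h2
  rw [← h2]
  calc mD D P * U * (P * pw (c - 1)) = (P * U) * (mD D P * pw (c - 1)) := by ring
    _ = _ := by rw [hPU, one_mul]

end

/-- commuting elements of an algebra define a homomorphism from the polynomial ring -/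
theorem exists_hom {σ k A : Type} [CommRing k] [Ring A] [Algebra k A] (x : σ → A)
    (hx : ∀ i j, x i * x j = x j * x i) :
    ∃ φ : MvPolynomial σ k →ₐ[k] A, ∀ i, φ (MvPolynomial.X i) = x i := by
  have hcomm : ∀ a ∈ Set.range x, ∀ b ∈ Set.range x, a * b = b * a := by
    rintro _ ⟨i, rfl⟩ _ ⟨j, rfl⟩
    exact hx i j
  let _ : CommRing (Algebra.adjoin k (Set.range x)) := Algebra.adjoinCommRingOfComm k hcomm
  refine ⟨(Algebra.adjoin k (Set.range x)).val.comp
    (MvPolynomial.aeval fun i => (⟨x i, Algebra.subset_adjoin ⟨i, rfl⟩⟩ :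
      Algebra.adjoin k (Set.range x))), fun i => ?_⟩
  rw [AlgHom.comp_apply, MvPolynomial.aeval_X]
  rfl

end Pool.Agent.ND.H19
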